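import Pool.Agent.Helper58.FX.Defs

set_option autoImplicit false
open MeasureTheory Filter Topology

/-! FX-21: compactness and densities. -/

namespace Helper32.FX

open Helper58.FX

lemma cnt_mono {P Q : Set (ℕ × ℕ)} (h : P ⊆ Q) (N : ℕ) : cnt P N ≤ cnt Q N := by
  classical
  unfold cnt
  have : ((box N).filter (fun s => s ∈ P)).card ≤ ((box N).filter (fun s => s ∈ Q)).card := by
    apply Finset.card_le_card
    intro s hs
    rw [Finset.mem_filter] at hs ⊢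
    exact ⟨hs.1, h hs.2⟩
  exact_mod_cast this

open Classical in
lemma cnt_union (P Q : Set (ℕ × ℕ)) (N : ℕ) : cnt (P ∪ Q) N ≤ cnt P N + cnt Q N := by
  unfold cnt
  norm_cast
  have key : (box N).filter (fun s => s ∈ P ∪ Q) ⊆
      (box N).filter (fun s => s ∈ P) ∪ (box N).filter (fun s => s ∈ Q) := by
    intro s hs
    rw [Finset.mem_filter] at hs
    rw [Finset.mem_union, Finset.mem_filter, Finset.mem_filter]
    rcases hs.2 with h | h
    · exact Or.inl ⟨hs.1, h⟩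
    · exact Or.inr ⟨hs.1, h⟩
  have h2 := (Finset.card_le_card key).trans (Finset.card_union_le _ _)
  refine le_trans (le_of_eq ?_) h2
  congr!

lemma up_mono {P Q : Set (ℕ × ℕ)} {e f : ℝ} (h : P ⊆ Q) (hef : e ≤ f) (hQ : Up Q e) : Up P f := by
  unfold Up at *
  filter_upwards [hQ] with N hN
  refine (cnt_mono h N).trans (hN.trans ?_)
  exact mul_le_mul_of_nonneg_right hef (by positivity)

lemma up_empty : Up (∅ : Set (ℕ × ℕ)) 0 := by
  unfold Up
  refine Filter.Eventually.of_forall (fun N => ?_)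
  simp [cnt]

lemma up_union {P Q : Set (ℕ × ℕ)} {e f : ℝ} (hP : Up P e) (hQ : Up Q f) :
    Up (P ∪ Q) (e + f) := by
  unfold Up at *
  filter_upwards [hP, hQ] with N h1 h2
  refine (cnt_union P Q N).trans ?_
  rw [add_mul]
  exact add_le_add h1 h2

lemma up_biUnion {ι : Type*} [DecidableEq ι] (J : Finset ι) (Q : ι → Set (ℕ × ℕ)) (e : ι → ℝ)
    (h : ∀ j ∈ J, Up (Q j) (e j)) : Up {s | ∃ j ∈ J, s ∈ Q j} (∑ j ∈ J, e j) := by
  induction J using Finset.induction_on with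
  | empty =>
    simp only [Finset.notMem_empty, false_and, exists_false, Finset.sum_empty]
    exact up_empty
  | insert a J ha ih =>
    rw [Finset.sum_insert ha]
    refine up_mono ?_ le_rfl (up_union (h a (Finset.mem_insert_self a J))
      (ih (fun j hj => h j (Finset.mem_insert_of_mem hj))))
    rintro s ⟨j, hj, hs⟩
    rcases Finset.mem_insert.mp hj with rfl | hj'
    · exact Or.inl hs
    · exact Or.inr ⟨j, hj', hs⟩

/-- FX-21 -/
theorem finite_cover {X : Type*} [TopologicalSpace X] {p : ℕ × ℕ → X}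
    (hK : IsCompact (closure (Set.range p))) (D : ℤ → ℕ → X → ℝ)
    (hDc : ∀ n M, Continuous (D n M))
    (hD : ∀ n : ℤ, ∀ η : ℝ, 0 < η → ∀ ε : ℝ, 0 < ε → ∃ M : ℕ, 1 ≤ M ∧
      Up {s | η < D n M (p s)} ε)
    (𝒱 : Set (Set X)) (h𝒱 : ∀ W ∈ 𝒱, IsOpen W)
    (hcov : ∀ q ∈ closure (Set.range p),
      (∀ n : ℤ, ∀ η : ℝ, 0 < η → ∃ M : ℕ, 1 ≤ M ∧ D n M q ≤ η) → ∃ W ∈ 𝒱, q ∈ W)
    {ε : ℝ} (hε : 0 < ε) :
    ∃ F : Finset (Set X), (∀ W ∈ F, W ∈ 𝒱) ∧ Up {s | ∀ W ∈ F, p s ∉ W} ε := by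
  classical
  obtain ⟨e, he, c, hc, hcε⟩ := posSumOfEncodable hε (ℤ × ℕ)
  have hM : ∀ j : ℤ × ℕ, ∃ M : ℕ, 1 ≤ M ∧
      Up {s | 1 / ((j.2 : ℝ) + 1) < D j.1 M (p s)} (e j) := fun j =>
    hD j.1 (1 / ((j.2 : ℝ) + 1)) (by positivity) (e j) (he j)
  choose M hM1 hMU using hM
  let Z : ℤ × ℕ → Set X := fun j => {q | 1 / ((j.2 : ℝ) + 1) < D j.1 (M j) q}
  have hZo : ∀ j, IsOpen (Z j) := fun j => isOpen_lt continuous_const (hDc j.1 (M j))
  let O : (𝒱 ⊕ (ℤ × ℕ)) → Set X := Sum.elim (fun W : 𝒱 => (W : Set X)) Z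
  have hOo : ∀ i, IsOpen (O i) := by
    rintro (W | j)
    · exact h𝒱 _ W.2
    · exact hZo j
  have hcovK : closure (Set.range p) ⊆ ⋃ i, O i := by
    intro q hq
    by_cases hz : ∃ j, q ∈ Z j
    · obtain ⟨j, hj⟩ := hz
      exact Set.mem_iUnion.mpr ⟨Sum.inr j, hj⟩
    · obtain ⟨W, hW, hqW⟩ := hcov q hq (by
        intro n η hη
        obtain ⟨k, hk⟩ := exists_nat_one_div_lt hη
        refine ⟨M (n, k), hM1 _, ?_⟩
        have : q ∉ Z (n, k) := fun h => hz ⟨_, h⟩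
        have h2 : ¬ (1 / ((k : ℝ) + 1) < D n (M (n, k)) q) := this
        exact (not_lt.mp h2).trans hk.le)
      exact Set.mem_iUnion.mpr ⟨Sum.inl ⟨W, hW⟩, hqW⟩
  obtain ⟨t, ht⟩ := hK.elim_finite_subcover O hOo hcovK
  let F : Finset (Set X) := t.biUnion (Sum.elim (fun W : 𝒱 => {(W : Set X)}) (fun _ => ∅))
  let J : Finset (ℤ × ℕ) := t.biUnion (Sum.elim (fun _ : 𝒱 => ∅) (fun j => {j}))
  refine ⟨F, ?_, ?_⟩
  · intro W hW
    obtain ⟨i, hi, hWi⟩ := Finset.mem_biUnion.mp hW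
    rcases i with W' | j
    · have : W = (W' : Set X) := by simpa using hWi
      rw [this]
      exact W'.2
    · simp at hWi
  · have hsum : ∑ j ∈ J, e j ≤ ε :=
      (sum_le_hasSum J (fun j _ => (he j).le) hc).trans hcε
    refine up_mono ?_ hsum (up_biUnion J (fun j => {s | 1 / ((j.2 : ℝ) + 1) < D j.1 (M j) (p s)})
      e (fun j _ => hMU j))
    intro s hs
    have hps : p s ∈ closure (Set.range p) := subset_closure ⟨s, rfl⟩
    obtain ⟨i, hi, hsi⟩ := Set.mem_iUnion₂.mp (ht hps)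
    rcases i with W' | j
    · exfalso
      refine hs (W' : Set X) (Finset.mem_biUnion.mpr ⟨Sum.inl W', hi, ?_⟩) hsi
      simp
    · exact ⟨j, Finset.mem_biUnion.mpr ⟨Sum.inr j, hi, by simp⟩, hsi⟩

end Helper32.FX
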